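import Pool.Agent.P8H50.NK.Stm2

/-! # NK/AOW (helper45): the order of the Wronskian at a place -/

set_option autoImplicit false

open FF Pool.Agent.W603.LV Pool.Agent.W603.PV Pool.Agent.P8H50.NK

namespace Pool.Agent.P8H45.NK

section
variable {k K : Type} [Field k] [Field K] [Algebra k K]

theorem iter_const_mul (D : Derivation k K K) (r : ℕ) (c : k) (x : K) :
    (⇑D)^[r] (algebraMap k K c * x) = algebraMap k K c * (⇑D)^[r] x := by
  induction r with
  | zero => rfl
  | succ r ih =>
    rw [Function.iterate_succ_apply', ih, Function.iterate_succ_apply', D.leibniz, D.map_algebraMap]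
    simp

theorem wr_lin {m : ℕ} (D : Derivation k K K) (B : Matrix (Fin m) (Fin m) k) (f : Fin m → K) :
    wr D (fun i => lk (B i) f) = algebraMap k K B.det * wr D f := by
  have h1 : wm (n := m) D (fun i => lk (B i) f) = (algebraMap k K).mapMatrix B * wm (n := m) D f := by
    ext i r
    rw [Matrix.mul_apply]
    change (⇑D)^[(r : ℕ)] (∑ j, algebraMap k K (B i j) * f j) =
      ∑ j, algebraMap k K (B i j) * (⇑D)^[(r : ℕ)] (f j)
    rw [iter_sum]
    exact Finset.sum_congr rfl fun j _ => iter_const_mul D r _ _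
  unfold wr
  rw [h1, Matrix.det_mul, RingHom.map_det]

/-- completing independent rows to an invertible matrix -/
theorem complete {n q : ℕ} (M : Fin q → Fin (n + 1) → k) (b : Finset (Fin q))
    (hb : LinearIndepOn k M (b : Set (Fin q))) :
    ∃ (B : Matrix (Fin (n + 1)) (Fin (n + 1)) k) (ι : Fin q → Fin (n + 1)),
      LinearIndependent k (fun i => B i) ∧ (∀ l ∈ b, B (ι l) = M l) ∧ Set.InjOn ι b := by
  classical
  have hs : LinearIndepOn k id (M '' (b : Set (Fin q))) := hb.id_image
  let β := Module.Basis.extend hs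
  let e := β.indexEquiv (Pi.basisFun k (Fin (n + 1)))
  have hmem : ∀ l, l ∈ b → M l ∈ hs.extend (Set.subset_univ _) := fun l hl =>
    hs.subset_extend _ ⟨l, hl, rfl⟩
  have hβ : ∀ x, β x = (x : Fin (n + 1) → k) := fun x => Module.Basis.extend_apply_self hs x
  refine ⟨fun i => β (e.symm i), fun l => if h : l ∈ b then e ⟨M l, hmem l h⟩ else 0, ?_, ?_, ?_⟩
  · have h1 := (β.reindex e).linearIndependent
    rw [Module.Basis.coe_reindex] at h1
    exact h1
  · intro l hl
    simp only [dif_pos hl, Equiv.symm_apply_apply, hβ]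
  · intro l hl l' hl' h
    have hl1 : l ∈ b := hl
    have hl2 : l' ∈ b := hl'
    simp only [dif_pos hl1, dif_pos hl2] at h
    have h2 : M l = M l' := congrArg Subtype.val (e.injective h)
    exact hb.injOn hl hl' h2

end

/-- the estimate of S_AOW and the one without loss -/
theorem aow2 (k K : Type) [Field k] [Field K] [Algebra k K] [CharZero k] [IsFF k K]
    [IsAlgClosed k] (n q : ℕ) (M : Fin q → Fin (n + 1) → k) (f : Fin (n + 1) → K)
    (hf : LinearIndependent k f) (D : Derivation k K K) (hD : D ≠ 0)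
    (b : Finset (Fin q)) (hb : LinearIndepOn k M (b : Set (Fin q))) (P : Place k K) :
    ∑ l ∈ b, (P.ord (lk (M l) f) - pord P f) ≤
      P.ord (wr D f) - (n + 1) * pord P f - tri (n + 1) * vo P D + tri (n + 1) ∧
    0 ≤ P.ord (wr D f) - (n + 1) * pord P f - tri (n + 1) * vo P D := by
  classical
  obtain ⟨B, ι, hB, hBM, hι⟩ := complete M b hb
  have hdet : B.det ≠ 0 := by
    have h1 : IsUnit B := Matrix.linearIndependent_rows_iff_isUnit.1 hB
    exact ((Matrix.isUnit_iff_isUnit_det B).1 h1).ne_zero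
  set μ := pord P f with hμ
  set g : Fin (n + 1) → K := fun i => lk (B i) f with hg
  have hg0 : ∀ i, g i ≠ 0 := by
    intro i h0
    have h1 := (Fintype.linearIndependent_iff.1 hf) (B i) (by
      rw [← h0]
      simp only [hg, lk]
      exact Finset.sum_congr rfl fun j _ => Algebra.smul_def _ _)
    exact hB.ne_zero i (funext h1)
  have hgμ : ∀ i, Ge P μ (g i) := by
    intro i
    refine Ge.sum _ _ fun j _ => ?_
    have := (Ge.const (P := P) (B i j)).mul (ge_pord P f j)
    rwa [zero_add] at this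
  set π := unif P with hπd
  have hπ : P.ord π = 1 := ord_unif P
  have hπ0 : π ≠ 0 := by
    intro h
    rw [h, P.ord_zero] at hπ
    omega
  have hu0 : D π ≠ 0 := der_pi_ne_zero hD P hπ
  set u := D π with hu
  set δ : Derivation k K K := u⁻¹ • D with hδd
  have hδ : δ π = 1 := by
    rw [hδd, Derivation.coe_smul, Pi.smul_apply, smul_eq_mul, ← hu, inv_mul_cancel₀ hu0]
  have hDδ : D = u • δ := by
    rw [hδd, smul_smul, mul_inv_cancel₀ hu0, one_smul]
  set c := π ^ μ with hc
  have hc0 : c ≠ 0 := zpow_ne_zero _ hπ0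
  have hcord : P.ord c = μ := by rw [hc, P.ord_zpow, hπ, mul_one]
  set h : Fin (n + 1) → K := fun l => g l / c with hh
  have hgh : g = fun l => c * h l := by
    funext l
    simp only [hh]
    field_simp
  have hWf : wr D f ≠ 0 := wr_ne_zero hD f hf
  have hWg : wr D g = algebraMap k K B.det * wr D f := wr_lin D B f
  have hdK : algebraMap k K B.det ≠ 0 := by
    rw [Ne, map_eq_zero]
    exact hdet
  have hordg : P.ord (wr D g) = P.ord (wr D f) := by
    rw [hWg, P.ord_mul hdK hWf, P.ord_const hdet, zero_add]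
  have hWg0 : wr D g ≠ 0 := by
    rw [hWg]
    exact mul_ne_zero hdK hWf
  have h2 : wr D g = (∏ r : Fin (n + 1), u ^ (r : ℕ) * c) * wr δ h := by
    rw [hgh]
    conv_lhs => rw [hDδ]
    exact wr_change δ u c h
  have hWh : wr δ h ≠ 0 := by
    intro h0
    rw [h0, mul_zero] at h2
    exact hWg0 h2
  have hprod0 : (∏ r : Fin (n + 1), u ^ (r : ℕ) * c) ≠ 0 :=
    Finset.prod_ne_zero_iff.2 fun r _ => mul_ne_zero (pow_ne_zero _ hu0) hc0
  have hprod : P.ord (∏ r : Fin (n + 1), u ^ (r : ℕ) * c) = tri (n + 1) * vo P D + (n + 1) * μ := by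
    have h3 : ∀ s : Finset (Fin (n + 1)), P.ord (∏ r ∈ s, u ^ (r : ℕ) * c) =
        ∑ r ∈ s, (((r : ℕ) : ℤ) * vo P D + μ) := by
      intro s
      induction s using Finset.induction_on with
      | empty => simpa using P.ord_one
      | insert a s ha ih =>
        rw [Finset.prod_insert ha, Finset.sum_insert ha, P.ord_mul
          (mul_ne_zero (pow_ne_zero _ hu0) hc0)
          (Finset.prod_ne_zero_iff.2 fun r _ => mul_ne_zero (pow_ne_zero _ hu0) hc0), ih,
          P.ord_mul (pow_ne_zero _ hu0) hc0, P.ord_pow, hcord]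
        rfl
    rw [h3, Finset.sum_add_distrib, ← Finset.sum_mul]
    simp [tri]
  have hhord : ∀ l, P.ord (h l) = P.ord (g l) - μ := by
    intro l
    simp only [hh]
    rw [P.ord_div (hg0 l) hc0, hcord]
  have hnn : ∀ l, 0 ≤ P.ord (h l) := by
    intro l
    rw [hhord]
    have := (hgμ l).resolve_left (hg0 l)
    omega
  set a : Fin (n + 1) → ℕ := fun l => (P.ord (h l)).toNat with ha
  have haord : ∀ l, (a l : ℤ) = P.ord (g l) - μ := by
    intro l
    simp only [ha]
    rw [Int.toNat_of_nonneg (hnn l), hhord]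
  have hgG : ∀ l, Ge P (a l : ℤ) (h l) := by
    intro l
    right
    rw [haord, hhord]
  have hL : Ge P (∑ l, (a l : ℤ) - tri (n + 1)) (wr δ h) := by
    unfold wr
    refine ge_det P _ _ (fun i r => ((a i - (r : ℕ) : ℕ) : ℤ)) (fun i r => ?_) (fun σ => ?_)
    · exact ge_iter P hπ hδ (hgG i) r
    · have hσ : ∑ l, (a l : ℤ) = ∑ i, (a (σ i) : ℤ) := (Equiv.sum_comp σ (fun i => (a i : ℤ))).symm
      rw [hσ]
      unfold tri
      rw [← Finset.sum_sub_distrib]
      refine Finset.sum_le_sum fun i _ => ?_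
      omega
  have hLo := hL.resolve_left hWh
  have hL0 : Ge P 0 (wr δ h) := by
    unfold wr
    refine ge_det P _ _ (fun i r => ((a i - (r : ℕ) : ℕ) : ℤ)) (fun i r => ?_) (fun σ => ?_)
    · exact ge_iter P hπ hδ (hgG i) r
    · exact Finset.sum_nonneg fun i _ => by positivity
  have hLo0 := hL0.resolve_left hWh
  have hkey : P.ord (wr D f) = tri (n + 1) * vo P D + (n + 1) * μ + P.ord (wr δ h) := by
    rw [← hordg, h2, P.ord_mul hprod0 hWh, hprod]
  have hsub : ∑ l ∈ b, (P.ord (lk (M l) f) - μ) ≤ ∑ l, (a l : ℤ) := by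
    calc ∑ l ∈ b, (P.ord (lk (M l) f) - μ) = ∑ l ∈ b, (a (ι l) : ℤ) := by
          refine Finset.sum_congr rfl fun l hl => ?_
          rw [haord]
          simp only [hg]
          rw [hBM l hl]
      _ = ∑ i ∈ b.image ι, (a i : ℤ) := (Finset.sum_image (f := fun i => (a i : ℤ)) fun x hx y hy h => hι hx hy h).symm
      _ ≤ ∑ l, (a l : ℤ) := Finset.sum_le_sum_of_subset_of_nonneg (Finset.subset_univ _)
          fun i _ _ => by positivity
  exact ⟨by linarith, by linarith⟩

theorem aow : S_AOW := by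
  intro k K _ _ _ _ _ _ n q M f hf D hD b hb P
  exact (aow2 k K n q M f hf D hD b hb P).1

/-- no loss without linear forms -/
theorem aow0 (k K : Type) [Field k] [Field K] [Algebra k K] [CharZero k] [IsFF k K]
    [IsAlgClosed k] (n : ℕ) (f : Fin (n + 1) → K)
    (hf : LinearIndependent k f) (D : Derivation k K K) (hD : D ≠ 0) (P : Place k K) :
    0 ≤ P.ord (wr D f) - (n + 1) * pord P f - tri (n + 1) * vo P D :=
  (aow2 k K n 0 (fun i => i.elim0) f hf D hD ∅ (by simp) P).2

end Pool.Agent.P8H45.NK
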