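import Pool.Agent.P8H50.NK.Stm4
import Pool.Agent.W602.GT.Der
import Pool.Agent.W602.GT.Dich

/-! # NK/GTP (helper45): general type -/

set_option autoImplicit false

namespace Pool.Agent.P8H45.NK.GTP

open Pool.Agent.P8H50.NK MvPolynomial FF Pool.Agent.W602.GT Pool.Agent.W603.LV Pool.Agent.W603.PV

section lin

variable {k K : Type} [Field k] [Field K] [Algebra k K] {s w : ℕ} {n : Fin s → ℕ}

theorem der_lin (D : Fin w → Derivation k K K) (s' : Finset (Fin w)) (c : Fin w → K) (x : K) :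
    (∑ i ∈ s', c i • D i) x = ∑ i ∈ s', c i * D i x := by
  classical
  induction s' using Finset.induction_on with
  | empty => simp
  | insert i s' hi ih =>
    rw [Finset.sum_insert hi, Finset.sum_insert hi, Derivation.add_apply, ih]
    rfl

theorem big_smul (ε : (Σ j, Fin (n j + 1)) ≃ Fin w ⊕ Fin s) (y : ∀ j, Fin (n j + 1) → K)
    (A : Matrix (Fin w) (Fin w) K) (D : Fin w → Derivation k K K) :
    (big ε y (fun i => ∑ j, A i j • D j)).det = A.det * (big ε y D).det := by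
  have h : big ε y (fun i => ∑ j, A i j • D j)
      = Matrix.fromBlocks A 0 0 (1 : Matrix (Fin s) (Fin s) K) * big ε y D := by
    ext a b
    rw [Matrix.mul_apply, Fintype.sum_sum_type]
    rcases a with i | j
    · simp [big, der_lin]
    · simp only [big, Matrix.of_apply, Sum.elim_inr, Matrix.fromBlocks_apply₂₁, Matrix.fromBlocks_apply₂₂, Matrix.zero_apply, zero_mul,
        Finset.sum_const_zero, zero_add, Matrix.one_apply, ite_mul, one_mul]
      rw [Finset.sum_ite_eq Finset.univ j]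
      simp
  rw [h, Matrix.det_mul, Matrix.det_fromBlocks_zero₁₂, Matrix.det_one, mul_one]

theorem big_dual (ε : (Σ j, Fin (n j + 1)) ≃ Fin w ⊕ Fin s) (y : ∀ j, Fin (n j + 1) → K)
    (b : ∀ j, Fin (n j + 1)) (hb : ∀ j, ε ⟨j, b j⟩ = Sum.inr j) (hy : ∀ j, y j (b j) = 1)
    (D : Fin w → Derivation k K K)
    (hD : ∀ i i', D i (fl y (ε.symm (Sum.inl i'))) = if i = i' then 1 else 0) :
    (big ε y D).det = 1 := by
  have hs : ∀ j, ε.symm (Sum.inr j) = ⟨j, b j⟩ := fun j => by rw [← hb j, Equiv.symm_apply_apply]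
  have h : big ε y D = Matrix.fromBlocks 1 0
      (Matrix.of fun j i => big ε y D (Sum.inr j) (Sum.inl i)) (1 : Matrix (Fin s) (Fin s) K) := by
    ext a c
    rcases a with i | j
    · rcases c with i' | j'
      · simp only [Matrix.fromBlocks_apply₁₁, Matrix.one_apply]
        exact hD i i'
      · simp only [Matrix.fromBlocks_apply₁₂, Matrix.zero_apply]
        change D i (fl y (ε.symm (Sum.inr j'))) = 0
        rw [hs]
        change D i (y j' (b j')) = 0
        rw [hy, Derivation.map_one_eq_zero]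
    · rcases c with i' | j'
      · simp
      · simp only [Matrix.fromBlocks_apply₂₂, Matrix.one_apply]
        change (if (ε.symm (Sum.inr j')).1 = j then fl y (ε.symm (Sum.inr j')) else 0) = _
        rw [hs]
        change (if j' = j then y j' (b j') else 0) = _
        rw [hy]
        by_cases hj : j = j'
        · simp [hj]
        · simp [hj, Ne.symm hj]
  rw [h, Matrix.det_fromBlocks_zero₁₂, Matrix.det_one, Matrix.det_one, mul_one]

end lin

section trb

variable {k K : Type} [Field k] [Field K] [Algebra k K]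

theorem alg_le {L L' : IntermediateField k K} (h : L ≤ L') (hL : Algebra.IsAlgebraic L K) :
    Algebra.IsAlgebraic L' K := by
  let _ : Algebra L L' := (IntermediateField.inclusion h).toAlgebra
  have : IsScalarTower L L' K := IsScalarTower.of_algebraMap_eq' rfl
  exact Algebra.IsAlgebraic.extendScalars (R := L) (FaithfulSMul.algebraMap_injective L L')

theorem tb_basis {s w : ℕ} {n : Fin s → ℕ} (ε : (Σ j, Fin (n j + 1)) ≃ Fin w ⊕ Fin s)
    (y : ∀ j, Fin (n j + 1) → K)
    (b : ∀ j, Fin (n j + 1)) (hb : ∀ j, ε ⟨j, b j⟩ = Sum.inr j) (hy : ∀ j, y j (b j) = 1)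
    (halg : Algebra.IsAlgebraic (IntermediateField.adjoin k (Set.range (fl y))) K)
    (htr : Algebra.trdeg k K = (w : ℕ)) :
    IsTranscendenceBasis k (fun i => fl y (ε.symm (Sum.inl i))) := by
  have hs : ∀ j, ε.symm (Sum.inr j) = ⟨j, b j⟩ := fun j => by rw [← hb j, Equiv.symm_apply_apply]
  have hle : IntermediateField.adjoin k (Set.range (fl y)) ≤
      IntermediateField.adjoin k (Set.range (fun i => fl y (ε.symm (Sum.inl i)))) := by
    rw [IntermediateField.adjoin_le_iff]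
    rintro _ ⟨p, rfl⟩
    obtain ⟨c, rfl⟩ := ε.symm.surjective p
    rcases c with i | j
    · exact IntermediateField.subset_adjoin k _ ⟨i, rfl⟩
    · rw [hs]
      change y j (b j) ∈ _
      rw [hy]
      exact one_mem _
  have h1 := alg_adjoin (alg_le hle halg)
  exact Algebra.IsAlgebraic.isTranscendenceBasis_of_le_trdeg_of_finite k _ (by rw [htr]; simp)

end trb

section rank

variable {k : Type} [Field k]

theorem rk_full {d q : ℕ} {M : Fin q → Fin d → k} {A : Finset (Fin q)}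
    (h : ∀ x : Fin d → k, (∀ j ∈ A, ∑ l, M j l * x l = 0) → x = 0) :
    Pool.Agent.N750.rk k M A = d := by
  classical
  unfold Pool.Agent.N750.rk
  have h1 : Submodule.span k (M '' (A : Set (Fin q))) = ⊤ := by
    rw [← Submodule.dualAnnihilator_eq_bot_iff]
    try infer_instance
    rw [eq_bot_iff]
    intro φ hφ
    rw [Submodule.mem_bot]
    rw [Submodule.mem_dualAnnihilator] at hφ
    have h2 := h (fun l => φ (Pi.single l 1)) (fun j hj => by
      have h3 := hφ (M j) (Submodule.subset_span ⟨j, hj, rfl⟩)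
      have h4 : M j = ∑ l, M j l • (Pi.single l 1 : Fin d → k) := by
        funext i
        simp [Pi.single_apply]
      rw [h4, map_sum] at h3
      simpa only [map_smul, smul_eq_mul] using h3)
    apply LinearMap.pi_ext'
    intro l
    ext
    simpa using congrFun h2 l
  rw [h1, finrank_top, Module.finrank_fin_fun]

end rank

section est

theorem real_est {s : ℕ} {q nn : Fin s → ℕ} (N M : ℕ) (hM : 1 ≤ M)
    (ω σ e' A : ∀ j, Fin (q j) → ℝ) (μ : Fin s → ℝ) (d : Fin s → ℕ) (U V W : ℝ)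
    (hσ : ∀ j l, σ j l ≤ N * (ω j l - e' j l / M))
    (hσs : ∀ j, ∑ l, σ j l = ((nn j : ℝ) + 1) * N + d j)
    (hA : ∀ j l, 0 ≤ A j l)
    (hx : (M : ℝ) ≤ ∑ j, ∑ l, e' j l * A j l ∨ ∀ j l, A j l = 0)
    (hU : ∑ j, (d j : ℝ) * μ j ≤ U)
    (hV : V = - ∑ j, ∑ l, σ j l * (A j l + μ j))
    (hW1 : (∑ j, (((nn j : ℝ) + 1) * μ j + ∑ l, ω j l * A j l)) - 1 ≤ W)
    (hW2 : ∑ j, ((nn j : ℝ) + 1) * μ j ≤ W) :
    0 ≤ U + V + N * W := by
  have hN : (0 : ℝ) ≤ N := Nat.cast_nonneg N
  have hMr : (0 : ℝ) < M := by exact_mod_cast hM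
  have h1 : ∑ j, ∑ l, σ j l * (A j l + μ j) = ∑ j, ∑ l, σ j l * A j l +
      N * ∑ j, ((nn j : ℝ) + 1) * μ j + ∑ j, (d j : ℝ) * μ j := by
    rw [Finset.mul_sum, ← Finset.sum_add_distrib, ← Finset.sum_add_distrib]
    refine Finset.sum_congr rfl fun j _ => ?_
    have h2 : ∑ l, σ j l * (A j l + μ j) = ∑ l, σ j l * A j l + (∑ l, σ j l) * μ j := by
      rw [Finset.sum_mul, ← Finset.sum_add_distrib]
      exact Finset.sum_congr rfl fun l _ => by ring
    rw [h2, hσs]
    ring
  rw [hV, h1]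
  rcases hx with hx | hx
  · have h3 : ∑ j, ∑ l, σ j l * A j l ≤
        N * ∑ j, ∑ l, ω j l * A j l - N / M * ∑ j, ∑ l, e' j l * A j l := by
      rw [Finset.mul_sum, Finset.mul_sum, ← Finset.sum_sub_distrib]
      refine Finset.sum_le_sum fun j _ => ?_
      rw [Finset.mul_sum, Finset.mul_sum, ← Finset.sum_sub_distrib]
      refine Finset.sum_le_sum fun l _ => ?_
      have h4 := mul_le_mul_of_nonneg_right (hσ j l) (hA j l)
      calc σ j l * A j l ≤ N * (ω j l - e' j l / M) * A j l := h4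
        _ = _ := by ring
    have h5 : (N : ℝ) ≤ N / M * ∑ j, ∑ l, e' j l * A j l := by
      have h6 := mul_le_mul_of_nonneg_left hx (div_nonneg hN hMr.le)
      rwa [div_mul_cancel₀ _ hMr.ne'] at h6
    rw [Finset.sum_add_distrib] at hW1
    have h7 := mul_le_mul_of_nonneg_left hW1 hN
    linarith
  · have h3 : ∑ j, ∑ l, σ j l * A j l = 0 :=
      Finset.sum_eq_zero fun j _ => Finset.sum_eq_zero fun l _ => by rw [hx, mul_zero]
    have h7 := mul_le_mul_of_nonneg_left hW2 hN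
    linarith

variable {k K : Type} [Field k] [Field K] [Algebra k K]

theorem ord_prod' (P : Place k K) {ι : Type} (S : Finset ι) (f : ι → K) (h : ∀ i ∈ S, f i ≠ 0) :
    P.ord (∏ i ∈ S, f i) = ∑ i ∈ S, P.ord (f i) := by
  classical
  induction S using Finset.induction_on with
  | empty => simp [P.ord_one]
  | insert i S hi ih =>
    rw [Finset.prod_insert hi, Finset.sum_insert hi, P.ord_mul (h i (Finset.mem_insert_self i S))
      (Finset.prod_ne_zero_iff.2 fun j hj => h j (Finset.mem_insert_of_mem hj)),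
      ih fun j hj => h j (Finset.mem_insert_of_mem hj)]

theorem pord_nonpos (P : Place k K) {n : ℕ} {f : Fin (n + 1) → K} {a : Fin (n + 1)} (h : f a = 1) :
    pord P f ≤ 0 := by
  have := pord_le P (f := f) (j := a) (by rw [h]; exact one_ne_zero)
  rwa [h, P.ord_one] at this

theorem lk_ge (P : Place k K) {n : ℕ} (b : Fin (n + 1) → k) (f : Fin (n + 1) → K)
    (h : lk b f ≠ 0) : pord P f ≤ P.ord (lk b f) := by
  have h1 : Ge P (pord P f) (lk b f) := by
    unfold lk
    refine Ge.sum _ _ fun i _ => ?_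
    have := (Ge.const (P := P) (b i)).mul (ge_pord P f i)
    simpa using this
  rcases h1 with h1 | h1
  · exact absurd h1 h
  · exact h1

theorem ord_u (P : Place k K) {s : ℕ} {n : Fin s → ℕ} {y : ∀ j, Fin (n j + 1) → K}
    {b : ∀ j, Fin (n j + 1)} (hy : ∀ j, y j (b j) = 1) (d : Fin s → ℕ) (hd : ∀ j, 1 ≤ d j)
    (p : Σ j, Fin (n j + 1)) (hp : fl y p ≠ 0) :
    ∑ j, (d j : ℤ) * pord P (y j) ≤ P.ord (fl y p) := by
  classical
  obtain ⟨j0, a⟩ := p
  have h0 : ∀ j, (d j : ℤ) * pord P (y j) ≤ 0 := fun j =>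
    mul_nonpos_of_nonneg_of_nonpos (Int.natCast_nonneg _) (pord_nonpos P (hy j))
  rw [← Finset.add_sum_erase _ _ (Finset.mem_univ j0)]
  have h1 : ∑ j ∈ Finset.univ.erase j0, (d j : ℤ) * pord P (y j) ≤ 0 :=
    Finset.sum_nonpos fun j _ => h0 j
  have h2 : (d j0 : ℤ) * pord P (y j0) ≤ pord P (y j0) := by
    have h3 : (1 : ℤ) ≤ d j0 := by exact_mod_cast hd j0
    have h4 := pord_nonpos P (hy j0)
    nlinarith
  have h5 : pord P (y j0) ≤ P.ord (y j0 a) := pord_le P hp
  change _ ≤ P.ord (y j0 a)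
  linarith

theorem ord_one_ge (P : Place k K) {s : ℕ} {n : Fin s → ℕ} {y : ∀ j, Fin (n j + 1) → K}
    {b : ∀ j, Fin (n j + 1)} (hy : ∀ j, y j (b j) = 1) (d : Fin s → ℕ) :
    ∑ j, (d j : ℤ) * pord P (y j) ≤ P.ord (1 : K) := by
  rw [P.ord_one]
  exact Finset.sum_nonpos fun j _ =>
    mul_nonpos_of_nonneg_of_nonpos (Int.natCast_nonneg _) (pord_nonpos P (hy j))

/-- the sums of the orders are multiples -/
theorem x_mult {s : ℕ} {n : Fin s → ℕ} {r : ℕ} (D : PDat k n r) (hG : D.Good)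
    {y : ∀ j, Fin (n j + 1) → K} {z : Fin r → K} (hP : D.Pt y z)
    (hlk : ∀ j l, lk (D.ℓ j l) (y j) ≠ 0) (P : Place k K) :
    ((((∏ i, D.m i : ℕ)) : ℤ) ≤ ∑ j, ∑ l, ((∑ i, ((∏ i, D.m i) / D.m i) * D.e i j l : ℕ) : ℤ) *
      (P.ord (lk (D.ℓ j l) (y j)) - pord P (y j))) ∨
    ∀ j l, P.ord (lk (D.ℓ j l) (y j)) - pord P (y j) = 0 := by
  classical
  set M := ∏ i, D.m i with hM
  set a : ∀ j, Fin (D.q j) → ℤ := fun j l => P.ord (lk (D.ℓ j l) (y j)) - pord P (y j) with ha
  have ha0 : ∀ j l, 0 ≤ a j l := fun j l => sub_nonneg.2 (lk_ge P _ _ (hlk j l))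
  have hdm : ∀ i, D.m i ∣ M := fun i => Finset.dvd_prod_of_mem _ (Finset.mem_univ i)
  have hdvd : ∀ i, ∃ c : ℤ, ∑ j, ∑ l, (D.e i j l : ℤ) * a j l = D.m i * c := by
    intro i
    have h1 := congrArg P.ord (hP.eq i)
    rw [P.ord_pow, ord_prod' P _ _ (fun j _ => Finset.prod_ne_zero_iff.2 fun l _ =>
      pow_ne_zero _ (hlk j l))] at h1
    have h2 : ∀ j, P.ord (∏ l, lk (D.ℓ j l) (y j) ^ D.e i j l) =
        ∑ l, (D.e i j l : ℤ) * P.ord (lk (D.ℓ j l) (y j)) := fun j => by
      rw [ord_prod' P _ _ (fun l _ => pow_ne_zero _ (hlk j l))]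
      exact Finset.sum_congr rfl fun l _ => P.ord_pow _ _
    simp only [h2] at h1
    choose c hc using fun j => hG.dvd i j
    refine ⟨P.ord (z i) - ∑ j, (c j : ℤ) * pord P (y j), ?_⟩
    rw [mul_sub, h1, Finset.mul_sum, ← Finset.sum_sub_distrib]
    refine Finset.sum_congr rfl fun j _ => ?_
    have h3 : (D.m i : ℤ) * ((c j : ℤ) * pord P (y j)) = (∑ l, (D.e i j l : ℤ)) * pord P (y j) := by
      have h4 := congrArg (Nat.cast (R := ℤ)) (hc j)
      push_cast at h4
      rw [h4]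
      ring
    rw [h3, Finset.sum_mul, ← Finset.sum_sub_distrib]
    refine Finset.sum_congr rfl fun l _ => ?_
    simp only [ha]
    ring
  choose c hc using hdvd
  have hc0 : ∀ i, 0 ≤ c i := by
    intro i
    have h1 : 0 ≤ (D.m i : ℤ) * c i := by
      rw [← hc i]
      exact Finset.sum_nonneg fun j _ => Finset.sum_nonneg fun l _ =>
        mul_nonneg (Int.natCast_nonneg _) (ha0 j l)
    have h2 : (0 : ℤ) < D.m i := by exact_mod_cast hG.m_pos i
    exact nonneg_of_mul_nonneg_right h1 h2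
  have hx : ∑ j, ∑ l, ((∑ i, (M / D.m i) * D.e i j l : ℕ) : ℤ) * a j l = M * ∑ i, c i := by
    have h1 : ∀ j l, ((∑ i, (M / D.m i) * D.e i j l : ℕ) : ℤ) * a j l =
        ∑ i, ((M / D.m i : ℕ) : ℤ) * ((D.e i j l : ℤ) * a j l) := fun j l => by
      push_cast
      rw [Finset.sum_mul]
      exact Finset.sum_congr rfl fun i _ => by ring
    simp only [h1]
    have h2 : ∀ j, ∑ l, ∑ i, ((M / D.m i : ℕ) : ℤ) * ((D.e i j l : ℤ) * a j l) =
        ∑ i, ((M / D.m i : ℕ) : ℤ) * ∑ l, (D.e i j l : ℤ) * a j l := fun j => by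
      rw [Finset.sum_comm]
      exact Finset.sum_congr rfl fun i _ => by rw [Finset.mul_sum]
    simp only [h2]
    rw [Finset.sum_comm, Finset.mul_sum]
    refine Finset.sum_congr rfl fun i _ => ?_
    rw [← Finset.mul_sum, hc i, ← mul_assoc]
    congr 1
    have h3 := Nat.div_mul_cancel (hdm i)
    exact_mod_cast h3
  by_cases h0 : ∑ i, c i = 0
  · right
    rw [h0, mul_zero] at hx
    intro j l
    have h1 : ∀ j l, 0 ≤ ((∑ i, (M / D.m i) * D.e i j l : ℕ) : ℤ) * a j l := fun j l =>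
      mul_nonneg (Int.natCast_nonneg _) (ha0 j l)
    have h2 := (Finset.sum_eq_zero_iff_of_nonneg (fun j _ => Finset.sum_nonneg
      fun l _ => h1 j l)).1 hx j (Finset.mem_univ j)
    have h3 := (Finset.sum_eq_zero_iff_of_nonneg (fun l _ => h1 j l)).1 h2 l (Finset.mem_univ l)
    rcases mul_eq_zero.1 h3 with h4 | h4
    · exfalso
      obtain ⟨i, hi⟩ := hG.occ j l
      have h5 : ∑ i, (M / D.m i) * D.e i j l = 0 := by exact_mod_cast h4
      have h6 := (Finset.sum_eq_zero_iff.1 h5) i (Finset.mem_univ i)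
      have hMp : 0 < M := Finset.prod_pos fun i _ => hG.m_pos i
      have h7 : 0 < M / D.m i := Nat.div_pos (Nat.le_of_dvd hMp (hdm i)) (hG.m_pos i)
      rcases Nat.mul_eq_zero.1 h6 with h8 | h8 <;> omega
    · exact h4
  · left
    rw [hx]
    have h1 : 1 ≤ ∑ i, c i := by
      have := Finset.sum_nonneg fun i (_ : i ∈ Finset.univ) => hc0 i
      omega
    have h2 : (0 : ℤ) ≤ M := Int.natCast_nonneg _
    nlinarith

end est

theorem numbers {k : Type} [Field k] {s : ℕ} {n : Fin s → ℕ} {r : ℕ} (D : PDat k n r)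
    (hG : D.Good) (hn : ∀ j, 1 ≤ n j) (hGNM : S_GNM) (hWTS : S_WTSF) :
    ∃ (N : ℕ) (σ : ∀ j, Fin (D.q j) → ℤ) (d : Fin s → ℕ) (ω : ∀ j, Fin (D.q j) → ℝ), 1 ≤ N ∧
      (∀ j, 1 ≤ d j) ∧ (∀ j, WtsF (D.ℓ j) (ω j)) ∧
      (∀ j l, (σ j l : ℝ) ≤ N * (ω j l -
        ((∑ i, ((∏ i, D.m i) / D.m i) * D.e i j l : ℕ) : ℝ) / ((∏ i, D.m i : ℕ) : ℝ))) ∧
      ∀ j, ∑ l, σ j l = (n j + 1) * N + d j := by
  classical
  set M := ∏ i, D.m i with hM
  have hdm : ∀ i, D.m i ∣ M := fun i => Finset.dvd_prod_of_mem _ (Finset.mem_univ i)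
  have hMp : 1 ≤ M := Nat.succ_le_of_lt (Finset.prod_pos fun i _ => hG.m_pos i)
  have hMr : (0 : ℝ) < M := by exact_mod_cast hMp
  have hw : ∀ j, ∃ ω : Fin (D.q j) → ℝ, WtsF (D.ℓ j) ω ∧
      ((n j : ℝ) + 1) * (D.q j - (2 * D.t j - n j + 1)) / (2 * D.t j - n j + 1) ≤
        ∑ l, ω l - (n j + 1) := by
    intro j
    obtain ⟨ω, h1, h2⟩ := hWTS k (n j + 1) (D.q j) (D.t j) (D.ℓ j) (by omega)
      (by have := (hG.dim j).1; omega) (hG.dim j).2 (fun A hA => rk_full (hG.mult j A hA))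
    refine ⟨ω, h1, ?_⟩
    have h3 : (2 * (D.t j : ℝ) - ((n j + 1 : ℕ) : ℝ) + 2) = 2 * D.t j - n j + 1 := by
      push_cast; ring
    rw [h3] at h2
    push_cast at h2
    exact h2
  choose ω hω1 hω2 using hw
  obtain ⟨ρ, hρ0, hρ1, hρ2⟩ := hG.small
  have hE : ∀ j, ∑ l, ((∑ i, (M / D.m i) * D.e i j l : ℕ) : ℝ) = M * D.E j := by
    intro j
    unfold PDat.E
    rw [Finset.mul_sum]
    push_cast
    rw [Finset.sum_comm]
    refine Finset.sum_congr rfl fun i _ => ?_
    have hmi : (D.m i : ℝ) ≠ 0 := by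
      have := hG.m_pos i
      positivity
    have h1 : ((M / D.m i : ℕ) : ℝ) = M / D.m i := Nat.cast_div (hdm i) hmi
    rw [← Finset.mul_sum, h1]
    ring
  obtain ⟨N, σ, d, hN, hd, hσ, hs⟩ := hGNM s n D.q D.t
    (fun j l => ∑ i, (M / D.m i) * D.e i j l) M ω (fun j => M * ρ j) hMp hn hG.dim
    (fun j => mul_nonneg hMr.le (hρ0 j)) (by
      rw [← Finset.mul_sum]
      nlinarith) (fun j => by
      rw [hE j]
      have h1 := hρ2 j (n j) (hn j) le_rfl
      have h2 := mul_le_mul_of_nonneg_left h1 hMr.le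
      calc (n j : ℝ) * (2 * D.t j + 1 - n j) * (M * D.E j)
          = M * ((n j : ℝ) * (2 * D.t j + 1 - n j) * D.E j) := by ring
        _ ≤ M * (2 * ρ j * (D.q j - (2 * D.t j + 1 - n j))) := h2
        _ = _ := by ring) hω2
  exact ⟨N, σ, d, ω, hN, hd, hω1, hσ, hs⟩

open scoped Classical in
theorem gtp : S_EPS → S_LGW → S_GNM → S_WTSF → S_GTP := by
  intro hEPS hLGW hGNM hWTS k _ _ _ s n r D K _ _ y z hG hP hn halg htr
  choose b hb1 using hP.one
  obtain ⟨ε, hε⟩ := hEPS s n b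
  have htb := tb_basis ε y b hε hb1 halg htr
  have hlk : ∀ j l, lk (D.ℓ j l) (y j) ≠ 0 := by
    intro j l h0
    obtain ⟨i, hi⟩ := hG.occ j l
    have h1 : z i ^ D.m i = 0 := by
      rw [hP.eq i]
      refine Finset.prod_eq_zero (Finset.mem_univ j) (Finset.prod_eq_zero (Finset.mem_univ l) ?_)
      rw [h0, zero_pow (by omega)]
    exact hP.nz i (pow_eq_zero_iff (by have := hG.m_pos i; omega) |>.1 h1)
  have hy0 : ∀ j, y j ≠ 0 := by
    intro j h0
    have := hb1 j
    rw [h0] at this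
    exact zero_ne_one this
  obtain ⟨N, σ, d, ω, hN, hd, hω, hσ, hs⟩ := numbers D hG hn hGNM hWTS
  set M := ∏ i, D.m i with hM
  have hMp : 1 ≤ M := Nat.succ_le_of_lt (Finset.prod_pos fun i _ => hG.m_pos i)
  set c : K := ∏ j, ∏ l, lk (D.ℓ j l) (y j) ^ (- σ j l) with hc
  have hc0 : c ≠ 0 := Finset.prod_ne_zero_iff.2 fun j _ => Finset.prod_ne_zero_iff.2 fun l _ =>
    zpow_ne_zero _ (hlk j l)
  set u : Fin (∑ j, n j + 1) → K := Fin.cons 1 (fun i => fl y (ε.symm (Sum.inl i))) with hu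
  refine ⟨htr, N, hN, fun i X => u i * c * (big ε y X).det ^ N, ?_, ?_, ?_⟩
  · intro i A X
    simp only [big_smul, mul_pow]
    ring
  · intro P _ i X hX
    by_cases hdet : (big ε y X).det = 0
    · left
      simp only [hdet]
      rw [zero_pow (by omega), mul_zero]
    by_cases hu0 : u i = 0
    · left
      simp only [hu0, zero_mul]
    right
    have hou : ∑ j, (d j : ℤ) * pord P (y j) ≤ P.ord (u i) := by
      refine Fin.cases ?_ (fun i' => ?_) i (motive := fun i => u i ≠ 0 →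
        ∑ j, (d j : ℤ) * pord P (y j) ≤ P.ord (u i)) hu0
      · intro _
        exact ord_one_ge P hb1 d
      · intro h
        exact ord_u P hb1 d hd _ h
    have hoc : P.ord c = - ∑ j, ∑ l, σ j l * P.ord (lk (D.ℓ j l) (y j)) := by
      rw [hc, ord_prod' P _ _ (fun j _ => Finset.prod_ne_zero_iff.2 fun l _ =>
        zpow_ne_zero _ (hlk j l)), ← Finset.sum_neg_distrib]
      refine Finset.sum_congr rfl fun j _ => ?_
      rw [ord_prod' P _ _ (fun l _ => zpow_ne_zero _ (hlk j l)), ← Finset.sum_neg_distrib]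
      refine Finset.sum_congr rfl fun l _ => ?_
      rw [P.ord_zpow]
      ring
    change 0 ≤ P.ord (u i * c * (big ε y X).det ^ N)
    rw [P.ord_mul (mul_ne_zero hu0 hc0) (pow_ne_zero _ hdet), P.ord_mul hu0 hc0, P.ord_pow]
    obtain ⟨hW1, hW2⟩ := hLGW k K s (∑ j, n j) n D.q ε P X hX y D.ℓ ω hy0 hlk hω hdet
    have hxm := x_mult D hG hP hlk P
    have key := real_est (nn := n) N M hMp ω (fun j l => (σ j l : ℝ))
      (fun j l => ((∑ i, (M / D.m i) * D.e i j l : ℕ) : ℝ))
      (fun j l => ((P.ord (lk (D.ℓ j l) (y j)) - pord P (y j) : ℤ) : ℝ))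
      (fun j => ((pord P (y j) : ℤ) : ℝ)) d (P.ord (u i) : ℝ) (P.ord c : ℝ)
      (P.ord (big ε y X).det : ℝ) hσ (fun j => by
        have := congrArg (Int.cast (R := ℝ)) (hs j)
        push_cast at this
        exact this) (fun j l => by exact_mod_cast sub_nonneg.2 (lk_ge P _ _ (hlk j l))) (by
        rcases hxm with h | h
        · left
          have h' := (Int.cast_le (R := ℝ)).2 h
          simp only [Int.cast_sum, Int.cast_mul, Int.cast_natCast] at h'
          exact h'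
        · right
          intro j l
          exact_mod_cast h j l) (by exact_mod_cast hou) (by
        rw [hoc]
        push_cast
        refine congrArg _ (Finset.sum_congr rfl fun j _ => Finset.sum_congr rfl fun l _ => ?_)
        ring) (by
        have h1 := hW1
        push_cast
        exact h1) hW2
    exact_mod_cast key
  · have hder : ∀ i, ∃ X : Derivation k K K, ∀ i', X (fl y (ε.symm (Sum.inl i'))) =
        if i = i' then 1 else 0 := fun i =>
      exists_der _ htb (fun i' => if i = i' then 1 else 0)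
    choose X hX using hder
    have hdet : (big ε y X).det = 1 := big_dual ε y b hε hb1 X hX
    refine ⟨X, ?_, ?_⟩
    · simp only [hdet, one_pow, mul_one]
      exact mul_ne_zero one_ne_zero hc0
    · have h1 : (fun i : Fin (∑ j, n j) => (u i.succ * c * (big ε y X).det ^ N) /
          (u 0 * c * (big ε y X).det ^ N)) = fun i => fl y (ε.symm (Sum.inl i)) := by
        funext i
        rw [hdet, one_pow, mul_one, mul_one]
        change (fl y (ε.symm (Sum.inl i)) * c) / (1 * c) = _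
        rw [one_mul, mul_div_cancel_right₀ _ hc0]
      rw [h1]
      exact htb.1

end Pool.Agent.P8H45.NK.GTP
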